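import Pool.Agent.W973.IP.FDefs

set_option autoImplicit false

namespace Pool.Agent.W154.IP

open Pool.Agent.W973.IP Pool.Agent.NPC Pool.Agent.NPC.ER Pool.Agent.NPC.H612

theorem earp_aux (E : List ℕ) (S : List ER.Con) :
    (∃ x : ℕ → ℝ, ∀ v : ℕ → ℝ, (∀ i ∈ E, v (2 * i) = x i) → ¬ SysHolds v S) ↔
    ∃ u : Vec (nn S), ∀ w : Vec (nn S), ¬ SysHolds (fun i => if isE E i = true then
      xt u ((varsOf S).idxOf i) else xt w ((varsOf S).idxOf i)) S := by
  have gd : ∀ w ∈ varsOf S, (varsOf S).getD ((varsOf S).idxOf w) 0 = w := by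
    intro w hw
    have hlt := List.idxOf_lt_length_iff.2 hw
    rw [List.getD_eq_getElem?_getD, List.getElem?_eq_getElem hlt]
    simp
  have sv : ∀ (v v' : ℕ → ℝ), (∀ w ∈ varsOf S, v w = v' w) → SysHolds v S → SysHolds v' S := by
    intro v v' h hs c hc
    refine (Con.holds_congr fun i hi => ?_).1 (hs c hc)
    exact h i (List.mem_flatMap.2 ⟨c, hc, hi⟩)
  have xf : ∀ (q : Vec (nn S)) w (hw : w ∈ varsOf S), xt q ((varsOf S).idxOf w) =
      q ⟨(varsOf S).idxOf w, List.idxOf_lt_length_iff.2 hw⟩ := fun q w hw =>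
    xt_fin q ⟨(varsOf S).idxOf w, List.idxOf_lt_length_iff.2 hw⟩
  constructor
  · rintro ⟨x, h⟩
    refine ⟨fun j => x ((varsOf S).getD j 0 / 2), fun w hs => ?_⟩
    let v : ℕ → ℝ := fun i => if isE E i = true then x (i / 2) else xt w ((varsOf S).idxOf i)
    refine h v (fun i hi => ?_) (sv _ v (fun a ha => ?_) hs)
    · have h1 : isE E (2 * i) = true := by
        unfold isE
        simp [hi]
      simp only [v, h1, if_true]
      congr 1
      omega
    · by_cases h1 : isE E a = true
      · simp only [v, h1, if_true]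
        rw [xf _ _ ha]
        simp only
        rw [gd a ha]
      · simp only [v]
        rw [if_neg h1, if_neg h1]
  · rintro ⟨u, h⟩
    refine ⟨fun i => xt u ((varsOf S).idxOf (2 * i)), fun v hv hs => ?_⟩
    refine h (fun j => v ((varsOf S).getD j 0)) ?_
    refine sv v _ (fun a ha => ?_) hs
    by_cases h1 : isE E a = true
    · rw [if_pos h1]
      unfold isE at h1
      rw [Bool.and_eq_true, decide_eq_true_eq, decide_eq_true_eq] at h1
      have h3 := hv _ h1.2
      have h4 : 2 * (a / 2) = a := by omega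
      simp only [h4] at h3
      exact h3
    · rw [if_neg h1, xf _ _ ha]
      simp only
      rw [gd a ha]

theorem earp (h : S_HP) : S_EARP := by
  intro p
  rw [ear_iff_sys, earp_aux]
  obtain ⟨-, -, h3⟩ := h p.1 (sysOf (Fm.not p.2))
  refine exists_congr fun u => forall_congr' fun w => ?_
  rw [Ne, h3 u w]

end Pool.Agent.W154.IP
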